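import Mathlib

/-!
Abstract continuation lemma: a homogeneous, Lipschitz-at-infinity family over `ι → ℤ`
has a Dirichlet-type series which continues across `Re s = 1` (trick: compare `a` with `m a + η`
for `m = 2, 3`).
-/

set_option autoImplicit false
open Filter Topology Complex

namespace Pool.Agent.H484R2.Cont

section summ

variable {ι : Type} [Fintype ι]

lemma summable_norm_rpow_pi {r : ℝ} (hr : (Fintype.card ι : ℝ) < r) :
    Summable fun a : ι → ℤ => ‖a‖ ^ (-r) := by
  classical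
  let L : Submodule ℤ (ι → ℝ) := Submodule.span ℤ (Set.range (Pi.basisFun ℝ ι))
  let b : Module.Basis ι ℤ L := (Pi.basisFun ℝ ι).restrictScalars ℤ
  have hfin : Module.finrank ℤ L = Fintype.card ι := Module.finrank_eq_card_basis b
  have h := ZLattice.summable_norm_rpow L (-r) (by rw [hfin]; linarith)
  have h2 := (b.equivFun.symm.toEquiv.summable_iff (f := fun z : L => ‖z‖ ^ (-r))).mpr h
  refine h2.congr fun a => ?_
  simp only [Function.comp_apply]
  congr 1
  have : ((b.equivFun.symm a : L) : ι → ℝ) = fun i => (a i : ℝ) := by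
    rw [Module.Basis.equivFun_symm_apply]
    ext i
    have hb : ∀ x, ((b x : L) : ι → ℝ) = Pi.basisFun ℝ ι x := fun x =>
      Module.Basis.restrictScalars_apply _ _ _
    simp [Finset.sum_apply, hb, Pi.single_apply]
  change ‖((b.equivFun.symm a : L) : ι → ℝ)‖ = ‖a‖
  rw [this]
  simp only [Pi.norm_def]
  congr 1
  
end summ

set_option linter.unusedSectionVars false

lemma one_le_norm {ι : Type} [Fintype ι] {a : ι → ℤ} (ha : a ≠ 0) : 1 ≤ ‖a‖ := by
  obtain ⟨i, hi⟩ := Function.ne_iff.mp ha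
  have h1 : ‖a i‖ ≤ ‖a‖ := norm_le_pi_norm a i
  have h2 : (1 : ℝ) ≤ ‖a i‖ := by
    rw [Int.norm_eq_abs]
    exact_mod_cast Int.one_le_abs (by simpa using hi)
  exact h2.trans h1

section main

variable {ι : Type} [Fintype ι] [DecidableEq ι]

/-- digits -/
def dig (m : ℕ) (η : ι → Fin m) : ι → ℤ := fun i => (η i : ℕ)

/-- division with remainder on `ι → ℤ` -/
def divE (m : ℕ) [NeZero m] : (ι → ℤ) ≃ (ι → ℤ) × (ι → Fin m) :=
  (Equiv.piCongrRight fun _ => Int.divModEquiv m).trans (Equiv.arrowProdEquivProdArrow _ _ _)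

lemma divE_symm_apply (m : ℕ) [NeZero m] (a : ι → ℤ) (η : ι → Fin m) :
    (divE m).symm (a, η) = (m : ℤ) • a + dig m η := by
  ext i
  simp [divE, dig, Int.divModEquiv, mul_comm, Equiv.arrowProdEquivProdArrow]

structure Data (ι : Type) [Fintype ι] (g : (ι → ℤ) → ℂ → ℂ) : Prop where
  card_pos : 0 < Fintype.card ι
  han : ∀ a, Differentiable ℂ (g a)
  h0 : ∀ s, g 0 s = 0
  hhom : ∀ m : ℕ, 1 ≤ m → ∀ a s, g ((m : ℤ) • a) s = (m : ℂ) ^ (-((Fintype.card ι : ℂ) * s)) * g a s
  hb : ∀ R : ℝ, 0 < R → ∃ C : ℝ, 0 ≤ C ∧ ∀ s : ℂ, ‖s‖ ≤ R → 0 ≤ s.re → ∀ a : ι → ℤ, a ≠ 0 →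
    ‖g a s‖ ≤ C * ‖a‖ ^ (-((Fintype.card ι : ℝ) * s.re))
  hlip : ∀ m : ℕ, 1 ≤ m → ∀ R : ℝ, 0 < R → ∃ C : ℝ, 0 ≤ C ∧ ∀ s : ℂ, ‖s‖ ≤ R → 0 ≤ s.re →
    ∀ a : ι → ℤ, a ≠ 0 → ∀ η : ι → Fin m,
    ‖g ((m : ℤ) • a + dig m η) s - g ((m : ℤ) • a) s‖ ≤
      C * ‖a‖ ^ (-((Fintype.card ι : ℝ) * s.re + 1))

variable {g : (ι → ℤ) → ℂ → ℂ}

/-- the difference series -/
noncomputable def E (g : (ι → ℤ) → ℂ → ℂ) (m : ℕ) (s : ℂ) : ℂ :=
  ∑' a : ι → ℤ, ∑ η : ι → Fin m, (g ((m : ℤ) • a + dig m η) s - g ((m : ℤ) • a) s)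

lemma Data.summable (D : Data ι g) {s : ℂ} (hs : 1 < s.re) : Summable fun a => g a s := by
  obtain ⟨C, hC0, hC⟩ := D.hb (‖s‖ + 1) (by positivity)
  have hn : (1 : ℝ) ≤ Fintype.card ι := by exact_mod_cast D.card_pos
  have hsum := (summable_norm_rpow_pi (ι := ι) (r := Fintype.card ι * s.re)
    (by nlinarith)).mul_left C
  refine Summable.of_norm_bounded hsum fun a => ?_
  by_cases ha : a = 0
  · subst ha
    rw [D.h0, norm_zero]
    positivity
  · exact hC s (by linarith) (by linarith) a ha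

lemma Data.analytic_E (D : Data ι g) (m : ℕ) (hm : 1 ≤ m) {s₀ : ℂ}
    (hs₀ : 1 - 1 / (2 * (Fintype.card ι : ℝ)) < s₀.re) : AnalyticAt ℂ (E g m) s₀ := by
  have hn : (1 : ℝ) ≤ Fintype.card ι := by exact_mod_cast D.card_pos
  set n : ℝ := (Fintype.card ι : ℝ) with hndef
  set R : ℝ := ‖s₀‖ + 1 with hR
  have hRpos : 0 < R := by positivity
  obtain ⟨C, hC0, hC⟩ := D.hb R hRpos
  obtain ⟨C', hC0', hC'⟩ := D.hlip m hm R hRpos
  set U : Set ℂ := {s : ℂ | ‖s‖ < R ∧ 1 - 1 / (2 * n) < s.re} with hU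
  have hUo : IsOpen U := by
    apply IsOpen.inter
    · exact isOpen_lt continuous_norm continuous_const
    · exact isOpen_lt continuous_const Complex.continuous_re
  have hs₀U : s₀ ∈ U := ⟨by rw [hR]; linarith, hs₀⟩
  have hσ : ∀ s ∈ U, 0 ≤ s.re := by
    intro s hs
    have h1 : 1 / (2 * n) ≤ 1 := by
      rw [div_le_one (by positivity)]; linarith
    linarith [hs.2]
  -- majorant
  let u : (ι → ℤ) → ℝ := fun a =>
    (Fintype.card (ι → Fin m) : ℝ) * (if a = 0 then C else C' * ‖a‖ ^ (-(n + 1 / 2)))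
  have hu : Summable u := by
    apply Summable.mul_left
    have h1 : Summable fun a : ι → ℤ => C' * ‖a‖ ^ (-(n + 1 / 2)) :=
      (summable_norm_rpow_pi (ι := ι) (r := n + 1 / 2) (by linarith)).mul_left C'
    refine (h1.add (summable_of_hasFiniteSupport (f := fun a : ι → ℤ => if a = 0 then C else 0) ?_)).of_nonneg_of_le
      ?_ ?_
    · refine Set.Finite.subset (Set.finite_singleton (0 : ι → ℤ)) ?_
      intro a ha
      simp only [Function.mem_support] at ha
      by_contra h
      exact ha (by simp at h; simp [h])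
    · intro a
      split_ifs <;> positivity
    · intro a
      split_ifs with h
      · have : 0 ≤ C' * ‖a‖ ^ (-(n + 1 / 2)) := by positivity
        linarith
      · simp
  have hdiff : DifferentiableOn ℂ (E g m) U := by
    unfold E
    refine differentiableOn_tsum_of_summable_norm hu ?_ hUo ?_
    · intro a
      refine DifferentiableOn.fun_sum fun η _ => ?_
      exact ((D.han _).sub (D.han _)).differentiableOn
    · intro a s hs
      refine (norm_sum_le _ _).trans ?_
      refine (Finset.sum_le_card_nsmul _ _ (if a = 0 then C else C' * ‖a‖ ^ (-(n + 1 / 2))) ?_).trans ?_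
      · intro η _
        have hsR : ‖s‖ ≤ R := le_of_lt hs.1
        split_ifs with h
        · subst h
          rw [smul_zero, zero_add, D.h0, sub_zero]
          by_cases hη : dig m η = 0
          · rw [hη, D.h0, norm_zero]; exact hC0
          · refine (hC s hsR (hσ s hs) _ hη).trans ?_
            have h1 : ‖dig m η‖ ^ (-(n * s.re)) ≤ 1 := by
              apply Real.rpow_le_one_of_one_le_of_nonpos (one_le_norm hη)
              have := hσ s hs
              have : 0 ≤ n * s.re := by positivity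
              linarith
            calc C * ‖dig m η‖ ^ (-(n * s.re)) ≤ C * 1 := by gcongr
              _ = C := mul_one _
        · refine (hC' s hsR (hσ s hs) a h η).trans ?_
          have h1 : ‖a‖ ^ (-(n * s.re + 1)) ≤ ‖a‖ ^ (-(n + 1 / 2)) := by
            apply Real.rpow_le_rpow_of_exponent_le (one_le_norm h)
            have h2 := hs.2
            have h3 : n * (1 - 1 / (2 * n)) < n * s.re := by
              apply mul_lt_mul_of_pos_left h2; linarith
            have h4 : n * (1 - 1 / (2 * n)) = n - 1 / 2 := by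
              field_simp
            linarith
          gcongr
      · simp [u, nsmul_eq_mul]
  exact hdiff.analyticAt (hUo.mem_nhds hs₀U)

lemma Data.identity (D : Data ι g) (m : ℕ) [NeZero m] {s : ℂ} (hs : 1 < s.re) :
    E g m s = (1 - (m : ℂ) ^ ((Fintype.card ι : ℂ) * (1 - s))) * ∑' a, g a s := by
  have hm : 1 ≤ m := NeZero.one_le
  have hS := D.summable hs
  have hS2 : Summable fun p : (ι → ℤ) × (ι → Fin m) => g ((m : ℤ) • p.1 + dig m p.2) s := by
    have := ((divE (ι := ι) m).symm.summable_iff (f := fun a => g a s)).mpr hS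
    refine this.congr fun p => ?_
    simp only [Function.comp_apply]
    rw [← divE_symm_apply]
  have hS3 : Summable fun a : ι → ℤ => g ((m : ℤ) • a) s := by
    have := hS.mul_left ((m : ℂ) ^ (-((Fintype.card ι : ℂ) * s)))
    refine this.congr fun a => ?_
    rw [D.hhom m hm]
  have hT1 : ∑' a : ι → ℤ, ∑ η : ι → Fin m, g ((m : ℤ) • a + dig m η) s = ∑' a, g a s := by
    rw [← (divE (ι := ι) m).symm.tsum_eq (fun a => g a s)]
    rw [show (∑' c : (ι → ℤ) × (ι → Fin m), g ((divE m).symm c) s) =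
      ∑' c : (ι → ℤ) × (ι → Fin m), g ((m : ℤ) • c.1 + dig m c.2) s from
      tsum_congr fun p => by rw [← divE_symm_apply]]
    rw [hS2.tsum_prod' (fun a => Summable.of_finite)]
    exact tsum_congr fun a => (tsum_fintype _).symm
  have hT2 : ∑' a : ι → ℤ, ∑ _η : ι → Fin m, g ((m : ℤ) • a) s =
      (m : ℂ) ^ (Fintype.card ι) * ((m : ℂ) ^ (-((Fintype.card ι : ℂ) * s)) * ∑' a, g a s) := by
    rw [← tsum_mul_left, ← tsum_mul_left]
    refine tsum_congr fun a => ?_
    rw [D.hhom m hm]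
    simp [Finset.sum_const]
  have hsub : E g m s = (∑' a : ι → ℤ, ∑ η : ι → Fin m, g ((m : ℤ) • a + dig m η) s) -
      ∑' a : ι → ℤ, ∑ _η : ι → Fin m, g ((m : ℤ) • a) s := by
    unfold E
    rw [← Summable.tsum_sub]
    · refine tsum_congr fun a => ?_
      rw [Finset.sum_sub_distrib]
    · have := hS2.prod
      refine this.congr fun a => ?_
      exact (tsum_fintype _)
    · simp only [Finset.sum_const]
      exact hS3.const_smul _
  rw [hsub, hT1, hT2]
  have hm0 : (m : ℂ) ≠ 0 := by exact_mod_cast (NeZero.ne m)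
  have : (m : ℂ) ^ ((Fintype.card ι : ℂ) * (1 - s)) =
      (m : ℂ) ^ (Fintype.card ι) * (m : ℂ) ^ (-((Fintype.card ι : ℂ) * s)) := by
    rw [mul_sub, mul_one, sub_eq_add_neg, Complex.cpow_add _ _ hm0, Complex.cpow_natCast]
  rw [this]
  ring

/-- powers `m ^ (n (1 - s))`: for `t ≠ 0` one of the bases `2, 3` does not give `1` at `1 + it` -/
lemma exists_ne_one {n : ℕ} (hn : 0 < n) {t : ℝ} (ht : t ≠ 0) :
    ∃ m : ℕ, (m = 2 ∨ m = 3) ∧ (m : ℂ) ^ ((n : ℂ) * (1 - (1 + t * I))) ≠ 1 := by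
  by_contra hcon
  push Not at hcon
  have key : ∀ m : ℕ, 2 ≤ m → (m : ℂ) ^ ((n : ℂ) * (1 - (1 + t * I))) = 1 →
      ∃ k : ℤ, (n : ℝ) * t * Real.log m = k * (2 * Real.pi) := by
    intro m hm h
    have hm0 : (m : ℂ) ≠ 0 := by
      have : m ≠ 0 := by omega
      exact_mod_cast this
    rw [Complex.cpow_def_of_ne_zero hm0, Complex.exp_eq_one_iff] at h
    obtain ⟨k, hk⟩ := h
    refine ⟨-k, ?_⟩
    have h1 : Complex.log (m : ℂ) = (Real.log m : ℂ) := by
      rw [Complex.natCast_log]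
    rw [h1] at hk
    have h2 := congrArg Complex.im hk
    have h3 : (Complex.log (m : ℂ)).re = Real.log m := by rw [h1, Complex.ofReal_re]
    simp [h3] at h2
    push_cast
    linarith
  obtain ⟨k, hk⟩ := key 2 le_rfl (by exact_mod_cast hcon 2 (Or.inl rfl))
  obtain ⟨l, hl⟩ := key 3 (by norm_num) (by exact_mod_cast hcon 3 (Or.inr rfl))
  have hnt : (n : ℝ) * t ≠ 0 := mul_ne_zero (by exact_mod_cast hn.ne') ht
  have hpi := Real.pi_pos
  have hl2 : 0 < Real.log 2 := Real.log_pos (by norm_num)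
  have hl3 : 0 < Real.log 3 := Real.log_pos (by norm_num)
  push_cast at hk hl
  have hk0 : k ≠ 0 := by
    rintro rfl
    simp only [Int.cast_zero, zero_mul] at hk
    exact (mul_ne_zero hnt hl2.ne') hk
  have hl0 : l ≠ 0 := by
    rintro rfl
    simp only [Int.cast_zero, zero_mul] at hl
    exact (mul_ne_zero hnt hl3.ne') hl
  -- l log 2 = k log 3
  have h23 : (l : ℝ) * Real.log 2 = k * Real.log 3 := by
    have h1 : (n : ℝ) * t * (l * Real.log 2 - k * Real.log 3) = 0 := by
      calc (n : ℝ) * t * (l * Real.log 2 - k * Real.log 3)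
          = l * ((n : ℝ) * t * Real.log 2) - k * ((n : ℝ) * t * Real.log 3) := by ring
        _ = 0 := by rw [hk, hl]; ring
    rcases mul_eq_zero.mp h1 with h | h
    · exact absurd h hnt
    · linarith
  -- take absolute values
  have habs : ((l.natAbs : ℕ) : ℝ) * Real.log 2 = (k.natAbs : ℕ) * Real.log 3 := by
    have h := congrArg abs h23
    rw [abs_mul, abs_mul, abs_of_pos hl2, abs_of_pos hl3] at h
    rw [Nat.cast_natAbs, Nat.cast_natAbs]
    push_cast
    exact h
  have hpow : (2 : ℝ) ^ l.natAbs = 3 ^ k.natAbs := by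
    apply Real.log_injOn_pos (Set.mem_Ioi.mpr (by positivity)) (Set.mem_Ioi.mpr (by positivity))
    rw [Real.log_pow, Real.log_pow, habs]
  have hpowN : 2 ^ l.natAbs = 3 ^ k.natAbs := by exact_mod_cast hpow
  have hl1 : l.natAbs ≠ 0 := by simpa using hl0
  have h2 : 2 ∣ 3 ^ k.natAbs := hpowN ▸ dvd_pow_self 2 hl1
  have := Nat.Prime.dvd_of_dvd_pow Nat.prime_two h2
  omega

theorem Data.continuation (D : Data ι g) (t : ℝ) :
    ∃ h : ℂ → ℂ, AnalyticAt ℂ h (1 + t * I) ∧
      ∀ᶠ z in 𝓝 ((1 : ℂ) + t * I), 1 < z.re → h z = (z - 1) * ∑' a, g a z := by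
  have hn1 : (1 : ℝ) ≤ Fintype.card ι := by exact_mod_cast D.card_pos
  have hre : 1 - 1 / (2 * (Fintype.card ι : ℝ)) < ((1 : ℂ) + t * I).re := by
    have : (0 : ℝ) < 1 / (2 * (Fintype.card ι : ℝ)) := by positivity
    rw [show ((1 : ℂ) + t * I).re = 1 by simp]
    linarith
  have hDdiff : ∀ m : ℕ, m ≠ 0 → Differentiable ℂ fun z : ℂ =>
      1 - (m : ℂ) ^ ((Fintype.card ι : ℂ) * (1 - z)) := by
    intro m hm z
    have hm0 : (m : ℂ) ≠ 0 := by exact_mod_cast hm
    refine DifferentiableAt.const_sub ?_ _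
    refine DifferentiableAt.const_cpow (by fun_prop) (Or.inl hm0)
  by_cases ht : t = 0
  · subst ht
    have e0 : (1 : ℂ) + ((0 : ℝ) : ℂ) * I = 1 := by simp
    rw [e0] at hre ⊢
    set Dz : ℂ → ℂ := fun z => 1 - ((2 : ℕ) : ℂ) ^ ((Fintype.card ι : ℂ) * (1 - z)) with hDz
    have hDd : Differentiable ℂ Dz := hDdiff 2 (by norm_num)
    have hD1 : Dz 1 = 0 := by simp [hDz]
    have hds : Differentiable ℂ (dslope Dz 1) := by
      rw [← differentiableOn_univ]
      exact (Complex.differentiableOn_dslope Filter.univ_mem).mpr hDd.differentiableOn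
    have hderiv : deriv Dz 1 = (Fintype.card ι : ℂ) * Complex.log 2 := by
      have h2 : ((2 : ℕ) : ℂ) ≠ 0 := by norm_num
      have hh : HasDerivAt (fun z : ℂ => (Fintype.card ι : ℂ) * (1 - z)) (-(Fintype.card ι : ℂ)) 1 := by
        have := ((hasDerivAt_id (1 : ℂ)).const_sub 1).const_mul (Fintype.card ι : ℂ)
        simpa using this
      have := (hh.const_cpow (c := ((2 : ℕ) : ℂ)) (Or.inl h2)).const_sub 1
      have h3 := this.deriv
      rw [hDz]
      rw [h3]
      simp
      ring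
    have hne : dslope Dz 1 1 ≠ 0 := by
      rw [dslope_same, hderiv]
      have hl : Complex.log 2 ≠ 0 := by
        have : Complex.log 2 = (Real.log 2 : ℂ) := by
          rw [Complex.ofReal_log (by norm_num)]; norm_num
        rw [this]
        exact_mod_cast (Real.log_pos (by norm_num : (1 : ℝ) < 2)).ne'
      refine mul_ne_zero ?_ hl
      exact_mod_cast D.card_pos.ne'
    refine ⟨fun z => E g 2 z / dslope Dz 1 z, ?_, ?_⟩
    · exact (D.analytic_E 2 (by norm_num) hre).div (hds.analyticAt 1) hne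
    · have hev : ∀ᶠ z in 𝓝 (1 : ℂ), dslope Dz 1 z ≠ 0 :=
        hds.continuous.continuousAt.eventually_ne hne
      filter_upwards [hev] with z hz hz1
      have hz1' : z ≠ 1 := by
        rintro rfl
        simp at hz1
      have hid := D.identity 2 hz1
      have hdsz : dslope Dz 1 z = Dz z / (z - 1) := by
        rw [dslope_of_ne _ hz1', slope_def_field, hD1, sub_zero]
      have hz1'' : z - 1 ≠ 0 := sub_ne_zero.mpr hz1'
      have hDne : Dz z ≠ 0 := by
        intro h0
        rw [hdsz, h0, zero_div] at hz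
        exact hz rfl
      rw [hid, hdsz]
      change Dz z * _ / _ = _
      field_simp
  · obtain ⟨m, hm, hne⟩ := exists_ne_one D.card_pos ht
    have hm1 : 1 ≤ m := by rcases hm with rfl | rfl <;> norm_num
    have : NeZero m := ⟨by omega⟩
    set Dz : ℂ → ℂ := fun z => 1 - (m : ℂ) ^ ((Fintype.card ι : ℂ) * (1 - z)) with hDz
    have hDd : Differentiable ℂ Dz := hDdiff m (by omega)
    have hne' : Dz (1 + t * I) ≠ 0 := by
      simp only [hDz]
      exact sub_ne_zero.mpr (Ne.symm hne)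
    refine ⟨fun z => (z - 1) * E g m z / Dz z, ?_, ?_⟩
    · refine AnalyticAt.div ?_ (hDd.analyticAt _) hne'
      exact (analyticAt_id.sub analyticAt_const).mul (D.analytic_E m hm1 hre)
    · have hev : ∀ᶠ z in 𝓝 ((1 : ℂ) + t * I), Dz z ≠ 0 :=
        hDd.continuous.continuousAt.eventually_ne hne'
      filter_upwards [hev] with z hz hz1
      rw [D.identity m hz1]
      change (z - 1) * (Dz z * _) / Dz z = _
      field_simp

end main

end Pool.Agent.H484R2.Cont
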