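import Pool.Agent.H484R2.Final0

/-! Final assembly, from the prime ideal theorem and the Diophantine module. -/

set_option autoImplicit false
open Polynomial NumberField Module Filter Topology

namespace Pool.Agent.H484R2

/-- The Diophantine statement. -/
def DIO : Prop := ∀ (b c : ℤ), Stable b c → (Set.range (orb b c)).Infinite → ∀ N : ℕ,
    ∃ a : ℕ, 1 ≤ a ∧ ∀ I : Finset ℕ, I ⊆ Finset.Icc 1 N → I.Nonempty →
      ¬ IsSquare (∏ i ∈ I, orb b c (a + i))

/-- the integer map -/
def fz (b c : ℤ) (x : ℤ) : ℤ := x ^ 2 + b * x + c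

/-- the prime support up to `N` -/
def SP (b c α : ℤ) (N : ℕ) : Set ℕ := {p : ℕ | p ≤ N ∧ p.Prime ∧
  ∃ n : ℕ, 1 ≤ n ∧ (fz b c)^[n] α ≠ 0 ∧ (p : ℤ) ∣ (fz b c)^[n] α}

lemma fz_cast (b c α : ℤ) (n p : ℕ) : (((fz b c)^[n] α : ℤ) : ZMod p) = (fp b c p)^[n] (α : ZMod p) := by
  induction n with
  | zero => rfl
  | succ n ih =>
    rw [Function.iterate_succ_apply', Function.iterate_succ_apply', ← ih]
    simp [fz, fp]

lemma SP_finite (b c α : ℤ) (N : ℕ) : (SP b c α N).Finite :=
  (Set.finite_Iic N).subset fun _ hp => hp.1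

lemma bound (b c α : ℤ) (a C : ℕ) {K : Type} [Field K] [NumberField K] (B : PowerBasis ℚ K)
    (hB : minpoly ℚ B.gen = itq b c a) {y : 𝓞 K} (hy : (y : K) = B.gen) :
    ∃ K₀ : ℝ, ∀ N : ℕ, ((SP b c α N).ncard : ℝ) ≤ K₀ + AC b c [(C, y)] N := by
  classical
  obtain ⟨N₁, hN₁, hhom⟩ := exists_hom B hB hy
  -- bad primes
  let Bad : Finset ℕ := Finset.range (N₁.natAbs + 1) ∪
    (Finset.range (a + C)).biUnion fun n => ((fz b c)^[n] α).natAbs.primeFactors
  refine ⟨(Bad.card : ℝ), fun N => ?_⟩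
  let Good : Finset ℕ := ((Finset.range (N + 1)).filter Nat.Prime).filter
    fun p => 1 ≤ HC b c p [(C, y)]
  have hsub : SP b c α N ⊆ ((Bad ∪ Good : Finset ℕ) : Set ℕ) := by
    rintro p ⟨hpN, hp, n, hn1, hn0, hdvd⟩
    have : Fact p.Prime := ⟨hp⟩
    rw [Finset.mem_coe, Finset.mem_union]
    by_cases h1 : p ≤ N₁.natAbs
    · left
      exact Finset.mem_union_left _ (Finset.mem_range.mpr (by omega))
    by_cases h2 : n < a + C
    · left
      refine Finset.mem_union_right _ (Finset.mem_biUnion.mpr ⟨n, Finset.mem_range.mpr h2, ?_⟩)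
      rw [Nat.mem_primeFactors]
      exact ⟨hp, Int.natCast_dvd.mp hdvd, by simpa using hn0⟩
    right
    refine Finset.mem_filter.mpr ⟨Finset.mem_filter.mpr ⟨Finset.mem_range.mpr (by omega), hp⟩, ?_⟩
    have hN₁p : (N₁ : ZMod p) ≠ 0 := by
      rw [Ne, ZMod.intCast_zmod_eq_zero_iff_dvd]
      intro hd
      have := Int.natCast_dvd.mp hd
      exact h1 (Nat.le_of_dvd (Int.natAbs_pos.mpr hN₁) this)
    -- root
    obtain ⟨m, rfl⟩ : ∃ m, n = (a + C) + m := ⟨n - (a + C), by omega⟩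
    have hz : (fp b c p)^[a + C] ((fp b c p)^[m] (α : ZMod p)) = 0 := by
      rw [← Function.iterate_add_apply, ← fz_cast, ZMod.intCast_zmod_eq_zero_iff_dvd]
      exact hdvd
    rw [Function.iterate_add_apply] at hz
    obtain ⟨φ, hφ⟩ := hhom p hN₁p _ hz
    have hfin : Finite {φ : 𝓞 K →+* ZMod p // cond b c p [(C, y)] φ} := by
      have := hom_finite K p
      infer_instance
    have hne : Nonempty {φ : 𝓞 K →+* ZMod p // cond b c p [(C, y)] φ} := by
      refine ⟨⟨φ, ?_⟩⟩
      intro q hq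
      simp only [List.mem_singleton] at hq
      subst hq
      exact ⟨_, hφ.symm⟩
    exact Nat.card_pos
  have h1 : (SP b c α N).ncard ≤ (Bad ∪ Good).card := by
    rw [← Set.ncard_coe_finset]
    exact Set.ncard_le_ncard hsub (Finset.finite_toSet _)
  have h2 : (Bad ∪ Good).card ≤ Bad.card + Good.card := Finset.card_union_le _ _
  have h3 : (Good.card : ℝ) ≤ AC b c [(C, y)] N := by
    unfold AC
    have h4 : (Good.card : ℝ) = ∑ p ∈ (Finset.range (N + 1)).filter Nat.Prime,
        if 1 ≤ HC b c p [(C, y)] then (1 : ℝ) else 0 := by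
      rw [Finset.sum_ite, Finset.sum_const_zero, add_zero, Finset.sum_const, nsmul_eq_mul, mul_one]
    rw [h4]
    refine Finset.sum_le_sum fun p _ => ?_
    split_ifs with h
    · exact_mod_cast h
    · positivity
  have h5 : ((SP b c α N).ncard : ℝ) ≤ (Bad.card : ℝ) + (Good.card : ℝ) := by
    exact_mod_cast h1.trans h2
  linarith

theorem density_zero (hPIT : PIT) (hDIO : DIO) (b c : ℤ) (hs : Stable b c)
    (hinf : (Set.range (orb b c)).Infinite) (α : ℤ) :
    Tendsto (fun N : ℕ => ((SP b c α N).ncard : ℝ) / (Nat.primeCounting N : ℝ)) atTop (𝓝 0) := by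
  rw [Metric.tendsto_atTop]
  intro ε hε
  -- choose C
  obtain ⟨C, hC⟩ : ∃ C : ℕ, phi C < ε / 2 := by
    have := (phi_tendsto.eventually (gt_mem_nhds (half_pos hε))).exists
    exact this
  obtain ⟨a, ha, hI⟩ := hDIO b c hs hinf C
  obtain ⟨K, hF, hNF, B, hB⟩ := exists_rf (itq b c a) (hs a ha) (itq_monic b c a)
  obtain ⟨y, hy⟩ : ∃ y : 𝓞 K, (y : K) = B.gen := ⟨⟨B.gen, gen_integral B hB⟩, rfl⟩
  obtain ⟨K₀, hK₀⟩ := bound b c α a C B hB hy
  have hind := ind_start B hB ha hy C hI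
  have hmean := mean hPIT b c _ K [(C, y)] rfl hind
  simp only [List.map_cons, List.map_nil, List.prod_cons, List.prod_nil, mul_one] at hmean
  have hK : Tendsto (fun N : ℕ => K₀ / (Nat.primeCounting N : ℝ)) atTop (𝓝 0) :=
    tendsto_const_nhds.div_atTop primeCounting_tendsto_real
  have hlim := hK.add hmean
  rw [zero_add] at hlim
  have hev := hlim.eventually (gt_mem_nhds (show phi C < ε by linarith))
  have hpos : ∀ᶠ N : ℕ in atTop, 0 < (Nat.primeCounting N : ℝ) :=
    primeCounting_tendsto_real.eventually (eventually_gt_atTop 0)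
  obtain ⟨N₀, hN₀⟩ := eventually_atTop.mp (hev.and hpos)
  refine ⟨N₀, fun N hN => ?_⟩
  obtain ⟨h1, h2⟩ := hN₀ N hN
  rw [Real.dist_eq, sub_zero, abs_of_nonneg (by positivity)]
  calc ((SP b c α N).ncard : ℝ) / (Nat.primeCounting N : ℝ)
      ≤ (K₀ + AC b c [(C, y)] N) / (Nat.primeCounting N : ℝ) := by
        gcongr
        exact hK₀ N
    _ = K₀ / (Nat.primeCounting N : ℝ) + AC b c [(C, y)] N / (Nat.primeCounting N : ℝ) := by
        rw [add_div]
    _ < ε := h1

/-- the frozen statement, from `PIT` and `DIO` -/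
theorem main (hPIT : PIT) (hDIO : DIO) :
    ∀ f : Polynomial ℤ, f.Monic → f.natDegree = 2 →
      (∀ n : ℕ, 1 ≤ n →
        Irreducible (Polynomial.map (Int.castRingHom ℚ) ((f.comp)^[n] Polynomial.X))) →
      (∀ γ : ℚ,
        (Polynomial.derivative (Polynomial.map (Int.castRingHom ℚ) f)).eval γ = 0 →
        (Set.range (fun n : ℕ =>
          (fun x : ℚ => (Polynomial.map (Int.castRingHom ℚ) f).eval x)^[n] γ)).Infinite) →
      ∀ α : ℤ,
        Filter.Tendsto
          (fun N : ℕ =>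
            (({p : ℕ | p ≤ N ∧ p.Prime ∧
                ∃ n : ℕ, 1 ≤ n ∧ (fun x : ℤ => f.eval x)^[n] α ≠ 0 ∧
                  (p : ℤ) ∣ (fun x : ℤ => f.eval x)^[n] α}.ncard : ℝ) /
              (Nat.primeCounting N : ℝ)))
          Filter.atTop (nhds 0) := by
  intro f hmon hdeg hirr hcrit α
  obtain ⟨b, c, rfl⟩ : ∃ b c : ℤ, f = X ^ 2 + C b * X + C c := by
    refine ⟨f.coeff 1, f.coeff 0, ?_⟩
    have h2 : f.coeff 2 = 1 := by
      have := hmon.coeff_natDegree
      rwa [hdeg] at this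
    have h := eq_quadratic_of_degree_le_two (p := f) (by
      rw [degree_eq_natDegree hmon.ne_zero, hdeg]; norm_num)
    rw [h2, C_1, one_mul] at h
    exact h
  have hs : Stable b c := by
    intro n hn
    have := hirr n hn
    change Irreducible (Polynomial.map (Int.castRingHom ℚ) (itz b c n)) at this
    rw [itz_map] at this
    exact this
  have hF : (fun x : ℚ => (Polynomial.map (Int.castRingHom ℚ) (X ^ 2 + C b * X + C c : ℤ[X])).eval x) =
      F b c := by
    funext x
    simp [F]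
  have hinf : (Set.range (orb b c)).Infinite := by
    have h := hcrit (-(b : ℚ) / 2) (by
      simp
      ring)
    rw [hF] at h
    exact h
  have hfz : (fun x : ℤ => (X ^ 2 + C b * X + C c : ℤ[X]).eval x) = fz b c := by
    funext x
    simp [fz]
  rw [hfz]
  exact density_zero hPIT hDIO b c hs hinf α

end Pool.Agent.H484R2
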