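import Mathlib

namespace Pool.Agent.H484R2.EPi

/-- the vector space spanned by `1, e, π` over the algebraic numbers -/
def W : Set ℂ := {θ | ∃ a b c : ℂ, IsAlgebraic ℚ a ∧ IsAlgebraic ℚ b ∧ IsAlgebraic ℚ c ∧
  θ = a + b * Complex.exp 1 + c * Real.pi}

end Pool.Agent.H484R2.EPi
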