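import Pool.Agent.H301R2.SSE.Forms
import Pool.Agent.H484R2.EPiDef

set_option autoImplicit false

namespace Pool.Agent.H484R2.EPi

open Pool.Agent.H301R2.SSE

/-- `E = e` as a complex number -/
noncomputable abbrev E : ℂ := Complex.exp 1

theorem tr_pi : Transcendental ℚ (Real.pi : ℂ) :=
  Pool.Agent.H340R2.LW.transcendental_pi_complex

theorem tr_e : Transcendental ℚ E :=
  Pool.Agent.H340R2.LW.transcendental_exp_one_complex

theorem alg_I : IsAlgebraic ℚ Complex.I := Pool.Agent.H340R2.LW.isAlgebraic_I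

/-- a relation over the algebraic numbers gives `e = u + v π` with real algebraic `u`, `v ≠ 0` -/
theorem rel (α β γ : ℂ) (hα : IsAlgebraic ℚ α) (hβ : IsAlgebraic ℚ β) (hγ : IsAlgebraic ℚ γ)
    (h0 : ¬(α = 0 ∧ β = 0 ∧ γ = 0)) (h : α + β * E + γ * Real.pi = 0) :
    ∃ u v : ℂ, IsAlgebraic ℚ u ∧ IsAlgebraic ℚ v ∧ v ≠ 0 ∧ E = u + v * Real.pi ∧
      (starRingEnd ℂ) u = u ∧ (starRingEnd ℂ) v = v := by
  have hβ0 : β ≠ 0 := by
    intro hb
    rw [hb, zero_mul, add_zero] at h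
    by_cases hg : γ = 0
    · rw [hg, zero_mul, add_zero] at h
      exact h0 ⟨h, hb, hg⟩
    · apply tr_pi
      have : (Real.pi : ℂ) = -α * γ⁻¹ := by
        field_simp
        linear_combination h
      rw [this]
      exact hα.neg.mul hγ.inv
  have hγ0 : γ ≠ 0 := by
    intro hg
    rw [hg, zero_mul, add_zero] at h
    apply tr_e
    have : E = -α * β⁻¹ := by
      field_simp
      linear_combination h
    rw [this]
    exact hα.neg.mul hβ.inv
  have hu : IsAlgebraic ℚ (-α * β⁻¹) := hα.neg.mul hβ.inv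
  have hv : IsAlgebraic ℚ (-γ * β⁻¹) := hγ.neg.mul hβ.inv
  have hE : E = -α * β⁻¹ + -γ * β⁻¹ * Real.pi := by
    field_simp
    linear_combination h
  have hconj : ∀ {z : ℂ}, IsAlgebraic ℚ z → IsAlgebraic ℚ ((starRingEnd ℂ) z) := by
    intro z hz
    exact hz.algHom ((starRingEnd ℂ).toRatAlgHom)
  have hEc : (starRingEnd ℂ) E = E := by
    show (starRingEnd ℂ) (Complex.exp 1) = Complex.exp 1
    rw [← Complex.exp_conj, map_one]
  obtain ⟨u, hu'⟩ : ∃ u, u = -α * β⁻¹ := ⟨_, rfl⟩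
  obtain ⟨v, hv'⟩ : ∃ v, v = -γ * β⁻¹ := ⟨_, rfl⟩
  rw [← hu', ← hv'] at hE
  rw [← hu'] at hu
  rw [← hv'] at hv
  have h2 : E = (starRingEnd ℂ) u + (starRingEnd ℂ) v * Real.pi := by
    have := congrArg (starRingEnd ℂ) hE
    rw [hEc, map_add, map_mul, Complex.conj_ofReal] at this
    exact this
  have h3 : (u - (starRingEnd ℂ) u) + (v - (starRingEnd ℂ) v) * Real.pi = 0 := by
    linear_combination h2 - hE
  have h4 : v - (starRingEnd ℂ) v = 0 := by
    by_contra hne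
    apply tr_pi
    have : (Real.pi : ℂ) = -(u - (starRingEnd ℂ) u) * (v - (starRingEnd ℂ) v)⁻¹ := by
      field_simp
      linear_combination h3
    rw [this]
    exact (hu.sub (hconj hu)).neg.mul (hv.sub (hconj hv)).inv
  refine ⟨u, v, hu, hv, ?_, hE, ?_, ?_⟩
  · rw [hv']
    exact mul_ne_zero (neg_ne_zero.mpr hγ0) (inv_ne_zero hβ0)
  · rw [h4, zero_mul, add_zero] at h3
    exact (sub_eq_zero.mp h3).symm
  · exact (sub_eq_zero.mp h4).symm

theorem log_piI : IsAlgebraic ℚ (Complex.exp (Real.pi * Complex.I)) := by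
  rw [Complex.exp_pi_mul_I]
  exact isAlgebraic_one.neg

/-- `π` lies in the space of linear forms in logarithms -/
theorem pi_LB : (Real.pi : ℂ) ∈ LB := by
  have h := LB_mul (alg_I.neg) (LB_log log_piI)
  have : -Complex.I * (Real.pi * Complex.I) = (Real.pi : ℂ) := by
    linear_combination -(Real.pi : ℂ) * Complex.I_mul_I
  rwa [this] at h

theorem LB_le {z : ℂ} (h : z ∈ LB) : z ∈ Lt := by
  unfold LB at h
  unfold Lt
  exact Submodule.span_mono (Set.subset_union_right) h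

theorem pi_Lt : (Real.pi : ℂ) ∈ Lt := LB_le pi_LB

/-- a multiple plus an algebraic number: invertible form -/
theorem Lt_cancel {a b z : ℂ} (ha : IsAlgebraic ℚ a) (ha0 : a ≠ 0) (hb : b ∈ Lt)
    (h : a * z + b ∈ Lt) : z ∈ Lt := by
  have h1 : a * z + b - b ∈ Lt := Submodule.sub_mem _ h hb
  have h2 := Lt_mul ha.inv h1
  have : a⁻¹ * (a * z + b - b) = z := by
    rw [add_sub_cancel_right, ← mul_assoc, inv_mul_cancel₀ ha0, one_mul]
  rwa [this] at h2

/-- Baker for two logarithms and the constant `1` -/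
theorem baker2 {l m : ℂ} (hl : IsAlgebraic ℚ (Complex.exp l)) (hm : IsAlgebraic ℚ (Complex.exp m))
    (hlm : LinearIndependent ℚ ![l, m]) {a b c : ℂ} (ha : IsAlgebraic ℚ a)
    (hb : IsAlgebraic ℚ b) (hc : IsAlgebraic ℚ c) (h : a + b * l + c * m = 0) :
    a = 0 ∧ b = 0 ∧ c = 0 := by
  have := Pool.Agent.H297R2.baker_inhom (ι := Fin 2) ![l, m] (by
    intro i
    fin_cases i
    · exact hl
    · exact hm) hlm a ha ![b, c] (by
    intro i
    fin_cases i
    · exact hb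
    · exact hc) (by
    rw [Fin.sum_univ_two]
    simpa [add_assoc] using h)
  exact ⟨this.1, this.2 0, this.2 1⟩

theorem e_Lt {u v : ℂ} (hu : IsAlgebraic ℚ u) (hv : IsAlgebraic ℚ v) (hE : E = u + v * Real.pi) :
    E ∈ Lt := by
  rw [hE]
  exact Lt.add_mem (Lt_alg hu) (Lt_mul hv pi_Lt)

theorem hx_e : ∀ a b : ℂ, IsAlgebraic ℚ a → IsAlgebraic ℚ b →
    a * (![1, E] : Fin 2 → ℂ) 0 + b * (![1, E] : Fin 2 → ℂ) 1 = 0 → a = 0 ∧ b = 0 := by
  intro a b ha hb h
  simp only [Matrix.cons_val_zero, Matrix.cons_val_one, mul_one] at h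
  have hb0 : b = 0 := by
    by_contra hne
    apply tr_e
    have : E = -a * b⁻¹ := by
      field_simp
      linear_combination h
    rw [this]
    exact ha.neg.mul hb.inv
  rw [hb0, zero_mul, add_zero] at h
  exact ⟨h, hb0⟩

/-- the general principle: if `e` is in `Lt`, the space of `μ ∈ Lt` with `e μ ∈ Lt` has dimension
at most two -/
theorem principle (he : E ∈ Lt) (m1 m2 : ℂ) (h1 : m1 ∈ Lt) (h2 : m2 ∈ Lt)
    (hli : ∀ a b c : ℂ, IsAlgebraic ℚ a → IsAlgebraic ℚ b → IsAlgebraic ℚ c →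
      a + b * m1 + c * m2 = 0 → a = 0 ∧ b = 0 ∧ c = 0)
    (h3 : E * m1 ∈ Lt) (h4 : E * m2 ∈ Lt) : False := by
  refine strong_six ![1, E] ![1, m1, m2] hx_e ?_ ?_
  · intro c hc h
    rw [Fin.sum_univ_three] at h
    simp only [Matrix.cons_val_zero, Matrix.cons_val_one, Matrix.cons_val, mul_one] at h
    obtain ⟨k0, k1, k2⟩ := hli (c 0) (c 1) (c 2) (hc 0) (hc 1) (hc 2) h
    intro j
    fin_cases j
    · exact k0
    · exact k1
    · exact k2
  · intro i j
    fin_cases i <;> fin_cases j <;>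
      simp only [Matrix.cons_val_zero, Matrix.cons_val_one, Matrix.cons_val, mul_one, one_mul,
        Fin.zero_eta, Fin.mk_one, Fin.reduceFinMk]
    · exact Lt_one
    · exact h1
    · exact h2
    · exact he
    · exact h3
    · exact h4

/-- Baker: `π` is not a linear form in `1` and real logarithms of algebraic numbers -/
theorem pi_real {n : ℕ} (l : Fin n → ℝ) (hl : ∀ i, IsAlgebraic ℚ (Complex.exp (l i)))
    (c0 d : ℂ) (c : Fin n → ℂ) (hc0 : IsAlgebraic ℚ c0) (hd : IsAlgebraic ℚ d)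
    (hc : ∀ i, IsAlgebraic ℚ (c i)) (h : c0 + d * Real.pi + ∑ i, c i * (l i : ℂ) = 0) :
    d = 0 := by
  classical
  obtain ⟨κ, a, ha, hsp, hli⟩ := exists_linearIndependent' ℚ l
  haveI : Finite κ := Finite.of_injective a ha
  haveI : Fintype κ := Fintype.ofFinite κ
  have hrep : ∀ i : Fin n, ∃ q : κ → ℚ, l i = ∑ k, (q k : ℝ) * l (a k) := by
    intro i
    have h1 : l i ∈ Submodule.span ℚ (Set.range (l ∘ a)) := by
      rw [hsp]; exact Submodule.subset_span ⟨i, rfl⟩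
    rw [Submodule.mem_span_range_iff_exists_fun] at h1
    obtain ⟨q, hq⟩ := h1
    refine ⟨q, ?_⟩
    rw [← hq]
    apply Finset.sum_congr rfl
    intro k _
    rw [Rat.smul_def]
    rfl
  choose q hq using hrep
  have hb := Pool.Agent.H297R2.baker_inhom (ι := Option κ)
    (fun o => o.elim (Real.pi * Complex.I) (fun k => ((l (a k) : ℝ) : ℂ)))
    (by
      intro o
      cases o with
      | none => exact log_piI
      | some k => exact hl (a k))
    (by
      rw [Fintype.linearIndependent_iff]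
      intro g hg
      rw [Fintype.sum_option] at hg
      simp only [Option.elim, Rat.smul_def] at hg
      have him := congrArg Complex.im hg
      have hre := congrArg Complex.re hg
      have e1 : ((g none : ℂ) * (Real.pi * Complex.I)) = ((((g none : ℚ) : ℝ) * Real.pi : ℝ) : ℂ) *
          Complex.I := by push_cast; ring
      have e2 : (∑ k, (g (some k) : ℂ) * ((l (a k) : ℝ) : ℂ)) =
          ((∑ k, ((g (some k) : ℚ) : ℝ) * l (a k) : ℝ) : ℂ) := by push_cast; rfl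
      rw [e1, e2] at him hre
      simp only [Complex.add_im, Complex.add_re, Complex.mul_im, Complex.mul_re, Complex.ofReal_re,
        Complex.ofReal_im, Complex.I_re, Complex.I_im, mul_zero, mul_one, zero_mul, sub_zero,
        zero_add, add_zero, Complex.zero_im, Complex.zero_re] at him hre
      have hn : g none = 0 := by
        rcases mul_eq_zero.mp him with h0 | h0
        · exact_mod_cast h0
        · exact absurd h0 Real.pi_ne_zero
      have hs : ∀ k, g (some k) = 0 := by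
        rw [Fintype.linearIndependent_iff] at hli
        apply hli
        simp only [Rat.smul_def]
        exact hre
      intro o
      cases o with
      | none => exact hn
      | some k => exact hs k)
    c0 hc0 (fun o => o.elim (-Complex.I * d) (fun k => ∑ i, c i * (q i k : ℂ))) (by
      intro o
      cases o with
      | none => exact alg_I.neg.mul hd
      | some k =>
        show IsAlgebraic ℚ (∑ i, c i * (q i k : ℂ))
        rw [← mem_QB]
        apply sum_mem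
        intro i _
        refine mul_mem (mem_QB.mpr (hc i)) ?_
        rw [mem_QB]
        exact isAlgebraic_algebraMap (q i k)) (by
      rw [Fintype.sum_option]
      simp only [Option.elim]
      have e3 : ∑ k, (∑ i, c i * (q i k : ℂ)) * ((l (a k) : ℝ) : ℂ) = ∑ i, c i * (l i : ℂ) := by
        simp only [Finset.sum_mul]
        rw [Finset.sum_comm]
        apply Finset.sum_congr rfl
        intro i _
        have : ((l i : ℝ) : ℂ) = ∑ k, (q i k : ℂ) * ((l (a k) : ℝ) : ℂ) := by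
          conv_lhs => rw [hq i]
          push_cast
          rfl
        rw [this, Finset.mul_sum]
        apply Finset.sum_congr rfl
        intro k _
        ring
      rw [e3, ← h]
      linear_combination -(d * Real.pi) * Complex.I_mul_I)
  have h1 := hb.2 none
  simp only [Option.elim] at h1
  have h2 : Complex.I * (-Complex.I * d) = 0 := by rw [h1, mul_zero]
  linear_combination h2 + d * Complex.I_mul_I

theorem hli_e (a b c : ℂ) (ha : IsAlgebraic ℚ a) (hb : IsAlgebraic ℚ b) (hc : IsAlgebraic ℚ c)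
    (h : a + b * E + c * (E * E) = 0) : a = 0 ∧ b = 0 ∧ c = 0 := by
  have hc0 : c = 0 := by
    by_contra hne
    have h1 : (2 * c * E + b) ^ 2 = b ^ 2 - 4 * a * c := by linear_combination 4 * c * h
    have h2n : IsAlgebraic ℚ (2 : ℂ) := by simpa using isAlgebraic_algebraMap (R := ℚ) (A := ℂ) 2
    have h4n : IsAlgebraic ℚ (4 : ℂ) := by simpa using isAlgebraic_algebraMap (R := ℚ) (A := ℂ) 4
    have h2 : IsAlgebraic ℚ ((2 * c * E + b) ^ 2) := by
      rw [h1]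
      exact (hb.pow 2).sub ((h4n.mul ha).mul hc)
    have h3 : IsAlgebraic ℚ (2 * c * E + b) := h2.of_pow (by norm_num)
    apply tr_e
    have h4 : E = ((2 * c * E + b) - b) * (2 * c)⁻¹ := by
      field_simp
      ring
    rw [h4]
    exact (h3.sub hb).mul (h2n.mul hc).inv
  rw [hc0, zero_mul, add_zero] at h
  have := hx_e a b ha hb (by simpa using h)
  exact ⟨this.1, this.2, hc0⟩

section main

variable {u v : ℂ} (hu : IsAlgebraic ℚ u) (hv : IsAlgebraic ℚ v) (hv0 : v ≠ 0)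
  (hE : E = u + v * Real.pi)

include hu hv hE

theorem W_form {θ : ℂ} (h : θ ∈ W) : ∃ p r : ℂ, IsAlgebraic ℚ p ∧ IsAlgebraic ℚ r ∧
    θ = p + r * Real.pi ∧ (Transcendental ℚ θ → r ≠ 0) := by
  obtain ⟨a, b, c, ha, hb, hc, h⟩ := h
  have h1 : θ = (a + b * u) + (b * v + c) * Real.pi := by
    rw [h]
    linear_combination b * hE
  refine ⟨a + b * u, b * v + c, ha.add (hb.mul hu), (hb.mul hv).add hc, h1, ?_⟩
  intro ht hr
  apply ht
  rw [h1, hr, zero_mul, add_zero]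
  exact ha.add (hb.mul hu)

theorem W_Lt {θ : ℂ} (h : θ ∈ W) : θ ∈ Lt := by
  obtain ⟨p, r, hp, hr, h1, -⟩ := W_form hu hv hE h
  rw [h1]
  exact Lt.add_mem (Lt_alg hp) (Lt_mul hr pi_Lt)

/-- `π l ∈ Lt` from one algebraic value -/
theorem step1 {θ t l : ℂ} (h : θ ∈ W) (ht : Transcendental ℚ θ) (hts : t ∈ W)
    (hl : IsAlgebraic ℚ (Complex.exp l)) (halg : IsAlgebraic ℚ (Complex.exp (θ * l + t))) :
    (Real.pi : ℂ) * l ∈ Lt := by
  obtain ⟨p, r, hp, hr, h1, h2⟩ := W_form hu hv hE h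
  refine Lt_cancel hr (h2 ht) (b := p * l + t) (Lt.add_mem (Lt_mul hp (Lt_log hl))
    (W_Lt hu hv hE hts)) ?_
  have : r * (Real.pi * l) + (p * l + t) = θ * l + t := by rw [h1]; ring
  rw [this]
  exact Lt_log halg

theorem step2 {θ₁ θ₂ t : ℂ} (h1 : θ₁ ∈ W) (ht1 : Transcendental ℚ θ₁) (h2 : θ₂ ∈ W)
    (ht2 : Transcendental ℚ θ₂) (hts : t ∈ W)
    (halg : IsAlgebraic ℚ (Complex.exp (θ₁ * θ₂ + t))) :
    (Real.pi : ℂ) * Real.pi ∈ Lt := by
  obtain ⟨p1, r1, hp1, hr1, e1, n1⟩ := W_form hu hv hE h1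
  obtain ⟨p2, r2, hp2, hr2, e2, n2⟩ := W_form hu hv hE h2
  refine Lt_cancel (hr1.mul hr2) (mul_ne_zero (n1 ht1) (n2 ht2))
    (b := p1 * p2 + (p1 * r2 + p2 * r1) * Real.pi + t) ?_ ?_
  · exact Lt.add_mem (Lt.add_mem (Lt_alg (hp1.mul hp2))
      (Lt_mul ((hp1.mul hr2).add (hp2.mul hr1)) pi_Lt)) (W_Lt hu hv hE hts)
  · have : r1 * r2 * (Real.pi * Real.pi) + (p1 * p2 + (p1 * r2 + p2 * r1) * Real.pi + t) =
        θ₁ * θ₂ + t := by rw [e1, e2]; ring
    rw [this]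
    exact Lt_log halg

theorem mulW {θ₁ θ₂ : ℂ} (h1 : θ₁ ∈ W) (h2 : θ₂ ∈ W) (hpp : (Real.pi : ℂ) * Real.pi ∈ Lt) :
    θ₁ * θ₂ ∈ Lt := by
  obtain ⟨p1, r1, hp1, hr1, e1, -⟩ := W_form hu hv hE h1
  obtain ⟨p2, r2, hp2, hr2, e2, -⟩ := W_form hu hv hE h2
  have : θ₁ * θ₂ = r1 * r2 * (Real.pi * Real.pi) + (p1 * p2 + (p1 * r2 + p2 * r1) * Real.pi) := by
    rw [e1, e2]; ring
  rw [this]
  exact Lt.add_mem (Lt_mul (hr1.mul hr2) hpp) (Lt.add_mem (Lt_alg (hp1.mul hp2))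
      (Lt_mul ((hp1.mul hr2).add (hp2.mul hr1)) pi_Lt))

theorem step3 {θ₁ θ₂ θ₃ t₁ t₂ t₃ : ℂ} (h1 : θ₁ ∈ W) (ht1 : Transcendental ℚ θ₁) (h2 : θ₂ ∈ W)
    (ht2 : Transcendental ℚ θ₂) (h3 : θ₃ ∈ W) (ht3 : Transcendental ℚ θ₃)
    (hts1 : t₁ ∈ W) (hts2 : t₂ ∈ W) (hts3 : t₃ ∈ W) (hpp : (Real.pi : ℂ) * Real.pi ∈ Lt)
    (halg : IsAlgebraic ℚ (Complex.exp (θ₁ * θ₂ * θ₃ + t₁ * t₂ + t₃))) :
    (Real.pi : ℂ) * (Real.pi * Real.pi) ∈ Lt := by
  have hq := mulW hu hv hE hts1 hts2 hpp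
  have ht := W_Lt hu hv hE hts3
  obtain ⟨p1, r1, hp1, hr1, e1, n1⟩ := W_form hu hv hE h1
  obtain ⟨p2, r2, hp2, hr2, e2, n2⟩ := W_form hu hv hE h2
  obtain ⟨p3, r3, hp3, hr3, e3, n3⟩ := W_form hu hv hE h3
  refine Lt_cancel ((hr1.mul hr2).mul hr3)
    (mul_ne_zero (mul_ne_zero (n1 ht1) (n2 ht2)) (n3 ht3))
    (b := (p1 * p2 * p3 + (p1 * p2 * r3 + p1 * r2 * p3 + r1 * p2 * p3) * Real.pi +
      (p1 * r2 * r3 + r1 * p2 * r3 + r1 * r2 * p3) * (Real.pi * Real.pi)) + t₁ * t₂ + t₃) ?_ ?_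
  · refine Lt.add_mem (Lt.add_mem (Lt.add_mem (Lt.add_mem (Lt_alg ((hp1.mul hp2).mul hp3))
      (Lt_mul ?_ pi_Lt)) (Lt_mul ?_ hpp)) hq) ht
    · exact (((hp1.mul hp2).mul hr3).add ((hp1.mul hr2).mul hp3)).add ((hr1.mul hp2).mul hp3)
    · exact (((hp1.mul hr2).mul hr3).add ((hr1.mul hp2).mul hr3)).add ((hr1.mul hr2).mul hp3)
  · have : r1 * r2 * r3 * (Real.pi * (Real.pi * Real.pi)) + ((p1 * p2 * p3 +
        (p1 * p2 * r3 + p1 * r2 * p3 + r1 * p2 * p3) * Real.pi +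
        (p1 * r2 * r3 + r1 * p2 * r3 + r1 * r2 * p3) * (Real.pi * Real.pi)) + t₁ * t₂ + t₃) =
        θ₁ * θ₂ * θ₃ + t₁ * t₂ + t₃ := by rw [e1, e2, e3]; ring
    rw [this]
    exact Lt_log halg

theorem El {l : ℂ} (hl : l ∈ Lt) (h : (Real.pi : ℂ) * l ∈ Lt) : E * l ∈ Lt := by
  have : E * l = u * l + v * (Real.pi * l) := by rw [hE]; ring
  rw [this]
  exact Lt.add_mem (Lt_mul hu hl) (Lt_mul hv h)

theorem part1 {θ : ℝ} (h : (θ : ℂ) ∈ W) (ht : Transcendental ℚ θ) {n : ℕ} (x c : Fin n → ℝ)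
    (hx0 : ∀ i, 0 < x i) (hx : ∀ i, IsAlgebraic ℚ (x i)) (hc : ∀ i, IsAlgebraic ℚ (c i)) :
    Transcendental ℚ (Real.exp θ * ∏ i, x i ^ c i) := by
  intro halg
  have hcast : ∀ {r : ℝ}, IsAlgebraic ℚ r → IsAlgebraic ℚ (r : ℂ) := fun hr => hr.algebraMap
  obtain ⟨p, r, hp, hr, e1, n1⟩ := W_form hu hv hE h
  have htc : Transcendental ℚ (θ : ℂ) := by
    intro hh
    apply ht
    exact (isAlgebraic_algebraMap_iff (algebraMap ℝ ℂ).injective).mp hh
  have hprod : 0 < ∏ i, x i ^ c i := Finset.prod_pos (fun i _ => Real.rpow_pos_of_pos (hx0 i) _)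
  have hZ : 0 < Real.exp θ * ∏ i, x i ^ c i := mul_pos (Real.exp_pos _) hprod
  have hlog : Real.log (Real.exp θ * ∏ i, x i ^ c i) = θ + ∑ i, c i * Real.log (x i) := by
    rw [Real.log_mul (Real.exp_pos _).ne' hprod.ne', Real.log_exp,
      Real.log_prod (fun i _ => (Real.rpow_pos_of_pos (hx0 i) _).ne')]
    congr 1
    apply Finset.sum_congr rfl
    intro i _
    rw [Real.log_rpow (hx0 i)]
  have hlogc := congrArg (fun z : ℝ => (z : ℂ)) hlog
  rw [Complex.ofReal_add, e1] at hlogc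
  apply n1 htc
  refine pi_real (n := n + 1) (Fin.cons (Real.log (Real.exp θ * ∏ i, x i ^ c i))
    (fun i => Real.log (x i))) ?_ p r (Fin.cons (-1) (fun i => (c i : ℂ))) hp hr ?_ ?_
  · intro i
    refine Fin.cases ?_ (fun i => ?_) i
    · simp only [Fin.cons_zero]
      rw [← Complex.ofReal_exp, Real.exp_log hZ]
      exact hcast halg
    · simp only [Fin.cons_succ]
      rw [← Complex.ofReal_exp, Real.exp_log (hx0 i)]
      exact hcast (hx i)
  · intro i
    refine Fin.cases ?_ (fun i => ?_) i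
    · exact isAlgebraic_one.neg
    · exact hcast (hc i)
  · rw [Fin.sum_univ_succ]
    simp only [Fin.cons_zero, Fin.cons_succ]
    rw [hlogc]
    push_cast
    ring

theorem part2 {θ₁ θ₂ t₁ t₂ : ℂ} (h1 : θ₁ ∈ W) (ht1 : Transcendental ℚ θ₁) (h2 : θ₂ ∈ W)
    (ht2 : Transcendental ℚ θ₂) (hts1 : t₁ ∈ W) (hts2 : t₂ ∈ W) {l m : ℂ}
    (hl : IsAlgebraic ℚ (Complex.exp l)) (hm : IsAlgebraic ℚ (Complex.exp m))
    (hlm : LinearIndependent ℚ ![l, m]) (k1 : IsAlgebraic ℚ (Complex.exp (θ₁ * l + t₁)))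
    (k2 : IsAlgebraic ℚ (Complex.exp (θ₂ * m + t₂))) : False := by
  have q1 := step1 hu hv hE h1 ht1 hts1 hl k1
  have q2 := step1 hu hv hE h2 ht2 hts2 hm k2
  exact principle (e_Lt hu hv hE) l m (Lt_log hl) (Lt_log hm)
    (fun a b c ha hb hc h => baker2 hl hm hlm ha hb hc h)
    (El hu hv hE (Lt_log hl) q1) (El hu hv hE (Lt_log hm) q2)

include hv0 in
theorem part3 {θ₁ θ₂ θ₃ t₁ t₂ : ℂ} (h1 : θ₁ ∈ W) (ht1 : Transcendental ℚ θ₁) (h2 : θ₂ ∈ W)
    (ht2 : Transcendental ℚ θ₂) (h3 : θ₃ ∈ W) (ht3 : Transcendental ℚ θ₃) (hts1 : t₁ ∈ W)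
    (hts2 : t₂ ∈ W) {l : ℂ} (hl : IsAlgebraic ℚ (Complex.exp l))
    (hq : ∀ q : ℚ, l ≠ q * (Real.pi * Complex.I))
    (k1 : IsAlgebraic ℚ (Complex.exp (θ₁ * θ₂ + t₁)))
    (k2 : IsAlgebraic ℚ (Complex.exp (θ₃ * l + t₂))) : False := by
  have q1 := step2 hu hv hE h1 ht1 h2 ht2 hts1 k1
  have q2 := step1 hu hv hE h3 ht3 hts2 hl k2
  have hEW : E ∈ W := ⟨0, 1, 0, isAlgebraic_zero, isAlgebraic_one, isAlgebraic_zero, by
    show Complex.exp 1 = _
    ring⟩
  have hind : LinearIndependent ℚ ![(Real.pi : ℂ) * Complex.I, l] := by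
    rw [LinearIndependent.pair_iff]
    intro s t hst
    rw [Rat.smul_def, Rat.smul_def] at hst
    have ht0 : t = 0 := by
      by_contra hne
      have hne' : (t : ℂ) ≠ 0 := by exact_mod_cast hne
      apply hq (-s / t)
      push_cast
      field_simp
      linear_combination hst
    rw [ht0] at hst
    push_cast at hst
    rw [zero_mul, add_zero] at hst
    refine ⟨?_, ht0⟩
    rcases mul_eq_zero.mp hst with h0 | h0
    · exact_mod_cast h0
    · exfalso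
      rcases mul_eq_zero.mp h0 with h00 | h00
      · exact Real.pi_ne_zero (by exact_mod_cast h00)
      · exact Complex.I_ne_zero h00
  refine principle (e_Lt hu hv hE) E l (e_Lt hu hv hE) (Lt_log hl) ?_ (mulW hu hv hE hEW hEW q1)
    (El hu hv hE (Lt_log hl) q2)
  intro a b c ha hb hc h
  have hb2 := baker2 log_piI hl hind (a := a + b * u) (b := -Complex.I * (b * v)) (c := c)
    (ha.add (hb.mul hu)) (alg_I.neg.mul (hb.mul hv)) hc (by
      linear_combination h - b * hE - (b * v * Real.pi) * Complex.I_mul_I)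
  obtain ⟨r1, r2, r3⟩ := hb2
  have hbz : b = 0 := by
    rcases mul_eq_zero.mp r2 with h0 | h0
    · exact absurd (neg_eq_zero.mp h0) Complex.I_ne_zero
    · exact (mul_eq_zero.mp h0).resolve_right hv0
  rw [hbz, zero_mul, add_zero] at r1
  exact ⟨r1, hbz, r3⟩

theorem part4 {θ₁ θ₂ θ₃ θ₄ θ₅ t₁ t₂ t₃ t₄ : ℂ} (h1 : θ₁ ∈ W) (ht1 : Transcendental ℚ θ₁)
    (h2 : θ₂ ∈ W) (ht2 : Transcendental ℚ θ₂) (h3 : θ₃ ∈ W) (ht3 : Transcendental ℚ θ₃)
    (h4 : θ₄ ∈ W) (ht4 : Transcendental ℚ θ₄) (h5 : θ₅ ∈ W) (ht5 : Transcendental ℚ θ₅)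
    (hts1 : t₁ ∈ W) (hts2 : t₂ ∈ W) (hts3 : t₃ ∈ W) (hts4 : t₄ ∈ W)
    (k1 : IsAlgebraic ℚ (Complex.exp (θ₁ * θ₂ + t₁)))
    (k2 : IsAlgebraic ℚ (Complex.exp (θ₃ * θ₄ * θ₅ + t₂ * t₃ + t₄))) : False := by
  have q1 := step2 hu hv hE h1 ht1 h2 ht2 hts1 k1
  have q2 := step3 hu hv hE h3 ht3 h4 ht4 h5 ht5 hts2 hts3 hts4 q1 k2
  have hEW : E ∈ W := ⟨0, 1, 0, isAlgebraic_zero, isAlgebraic_one, isAlgebraic_zero, by
    show Complex.exp 1 = _
    ring⟩
  have hEE := mulW hu hv hE hEW hEW q1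
  refine principle (e_Lt hu hv hE) E (E * E) (e_Lt hu hv hE) hEE hli_e hEE ?_
  apply El hu hv hE hEE
  have : (Real.pi : ℂ) * (E * E) = u * u * Real.pi + (2 * u * v) * (Real.pi * Real.pi) +
      v * v * (Real.pi * (Real.pi * Real.pi)) := by rw [hE]; ring
  rw [this]
  have h2n : IsAlgebraic ℚ (2 : ℂ) := by simpa using isAlgebraic_algebraMap (R := ℚ) (A := ℂ) 2
  exact Lt.add_mem (Lt.add_mem (Lt_mul (hu.mul hu) pi_Lt) (Lt_mul ((h2n.mul hu).mul hv) q1))
    (Lt_mul (hv.mul hv) q2)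

end main

end Pool.Agent.H484R2.EPi
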