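import Pool.Agent.H484R2.Start

/-! Homomorphisms from the ring of integers of the root field. -/

set_option autoImplicit false
open Polynomial NumberField Module Filter Topology

namespace Pool.Agent.H484R2

/-- extension of a homomorphism along a map with finite cokernel exponent -/
lemma extend_hom {A B : Type*} [CommRing A] [CommRing B] (f : A →+* B) {N : ℤ} {p : ℕ}
    [Fact p.Prime] (hN : ∀ b : B, ∃ a : A, f a = (N : B) * b) (hN0 : (N : ZMod p) ≠ 0)
    (φ : A →+* ZMod p) (hker : ∀ a, f a = 0 → φ a = 0) :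
    ∃ ψ : B →+* ZMod p, ∀ a, ψ (f a) = φ a := by
  have hwd : ∀ a a' : A, f a = f a' → φ a = φ a' := by
    intro a a' h
    have := hker (a - a') (by rw [map_sub, h, sub_self])
    rw [map_sub] at this
    exact sub_eq_zero.mp this
  choose g hg using hN
  have hmul : ∀ b : B, ∀ a : A, f a = (N : B) * b → φ a = φ (g b) := fun b a h =>
    hwd _ _ (by rw [h, hg])
  refine ⟨⟨⟨⟨fun b => (N : ZMod p)⁻¹ * φ (g b), ?_⟩, ?_⟩, ?_, ?_⟩, ?_⟩
  · rw [← hmul 1 (N : A) (by rw [map_intCast, mul_one]), map_intCast]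
    exact inv_mul_cancel₀ hN0
  · intro x y
    simp only
    have h1 : φ (g x * g y) = (N : ZMod p) * φ (g (x * y)) := by
      have h2 : f (g x * g y) = f ((N : A) * g (x * y)) := by
        rw [map_mul, hg, hg, map_mul, hg, map_intCast]; ring
      rw [hwd _ _ h2, map_mul, map_intCast]
    rw [map_mul] at h1
    calc (N : ZMod p)⁻¹ * φ (g (x * y)) = (N : ZMod p)⁻¹ * ((N : ZMod p)⁻¹ *
          ((N : ZMod p) * φ (g (x * y)))) := by rw [inv_mul_cancel_left₀ hN0]
      _ = (N : ZMod p)⁻¹ * φ (g x) * ((N : ZMod p)⁻¹ * φ (g y)) := by rw [← h1]; ring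
  · simp only
    rw [← hmul 0 0 (by simp), map_zero, mul_zero]
  · intro x y
    simp only
    rw [← hmul (x + y) (g x + g y) (by rw [map_add, hg, hg]; ring), map_add, mul_add]
  · intro a
    simp only [RingHom.coe_mk, MonoidHom.coe_mk, OneHom.coe_mk]
    rw [← hmul (f a) ((N : A) * a) (by rw [map_mul, map_intCast]), map_mul, map_intCast,
      inv_mul_cancel_left₀ hN0]

section
variable {b c : ℤ} {a : ℕ} {K : Type} [Field K] [NumberField K] (B : PowerBasis ℚ K)
  (hB : minpoly ℚ B.gen = itq b c a)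

include hB in
lemma exists_index_gen {y : 𝓞 K} (hy : (y : K) = B.gen) : ∃ N : ℤ, N ≠ 0 ∧
    ∀ z : 𝓞 K, ∃ P : ℤ[X], aeval y P = (N : 𝓞 K) * z := by
  have hint : IsIntegral ℤ B.gen := gen_integral B hB
  have hd : IsIntegral ℤ (Algebra.discr ℚ B.basis) := by
    refine Algebra.discr_isIntegral ℚ fun i => ?_
    rw [B.basis_eq_pow]
    exact hint.pow _
  obtain ⟨N, hN⟩ := IsIntegrallyClosed.isIntegral_iff.mp hd
  have hd0 : Algebra.discr ℚ B.basis ≠ 0 := Algebra.discr_not_zero_of_basis ℚ B.basis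
  refine ⟨N, ?_, fun z => ?_⟩
  · rintro rfl
    apply hd0
    rw [← hN]
    simp
  · have h1 := Algebra.discr_mul_isIntegral_mem_adjoin (K := ℚ) (R := ℤ) hint z.isIntegral_coe
    rw [Algebra.adjoin_singleton_eq_range_aeval] at h1
    obtain ⟨P, hP⟩ := h1
    refine ⟨P, ?_⟩
    apply RingOfIntegers.coe_injective
    have h2 : ((aeval y P : 𝓞 K) : K) = aeval (y : K) P := by
      exact (aeval_algebraMap_apply K y P).symm
    have h3 : (((N : 𝓞 K) * z : 𝓞 K) : K) = (N : K) * (z : K) := by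
      simp only [map_mul, map_intCast]
    change ((aeval y P : 𝓞 K) : K) = (((N : 𝓞 K) * z : 𝓞 K) : K)
    rw [h2, h3, hy]
    refine Eq.trans hP ?_
    rw [← hN, Algebra.smul_def]
    simp

include hB in
lemma exists_hom {y : 𝓞 K} (hy : (y : K) = B.gen) : ∃ N : ℤ, N ≠ 0 ∧ ∀ (p : ℕ) [Fact p.Prime],
    (N : ZMod p) ≠ 0 → ∀ t : ZMod p, (fp b c p)^[a] t = 0 →
    ∃ φ : 𝓞 K →+* ZMod p, φ y = t := by
  obtain ⟨N, hN0, hN⟩ := exists_index_gen B hB hy
  refine ⟨N, hN0, fun p _ hp t ht => ?_⟩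
  obtain ⟨ψ, hψ⟩ := extend_hom (aeval y : ℤ[X] →ₐ[ℤ] 𝓞 K).toRingHom (N := N)
    (fun z => hN z) hp (eval₂RingHom (Int.castRingHom (ZMod p)) t) (by
      intro P hP
      have hP' : aeval y P = 0 := hP
      -- P vanishes at B.gen
      have h1 : aeval B.gen P = 0 := by
        rw [← hy]
        have := aeval_algebraMap_apply K y P
        rw [hP', map_zero] at this
        exact this
      have h2 : aeval B.gen (P.map (Int.castRingHom ℚ)) = 0 := by
        rw [aeval_def, eval₂_map]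
        have h3 : (algebraMap ℚ K).comp (Int.castRingHom ℚ) = algebraMap ℤ K := RingHom.ext_int _ _
        rw [h3]
        rw [aeval_def] at h1
        exact h1
      have h4 := minpoly.dvd ℚ B.gen h2
      rw [hB, ← itz_map] at h4
      have h5 : itz b c a ∣ P :=
        (Polynomial.map_dvd_map (Int.castRingHom ℚ) (RingHom.injective_int _)
          (itz_monic_deg b c a).1).mp h4
      obtain ⟨Q, rfl⟩ := h5
      rw [coe_eval₂RingHom, eval₂_mul, itz_zp, ht, zero_mul])
  refine ⟨ψ, ?_⟩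
  have h6 := hψ X
  simpa using h6

end

end Pool.Agent.H484R2
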