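import Mathlib

/-! Hat functions: a Lipschitz partition of unity on `ℝ^r` modulo `ℤ^r`. -/

set_option autoImplicit false
open Filter Topology

namespace Pool.Agent.H484R2

/-- hat function -/
noncomputable def hat (x : ℝ) : ℝ := max 0 (1 - |x|)

lemma hat_nonneg (x : ℝ) : 0 ≤ hat x := le_max_left _ _

lemma hat_le_one (x : ℝ) : hat x ≤ 1 := by
  unfold hat
  refine max_le (by norm_num) ?_
  linarith [abs_nonneg x]

lemma hat_eq_zero {x : ℝ} (h : 1 ≤ |x|) : hat x = 0 := by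
  unfold hat
  exact max_eq_left (by linarith)

lemma abs_lt_of_hat_ne_zero {x : ℝ} (h : hat x ≠ 0) : |x| < 1 := by
  by_contra hc
  exact h (hat_eq_zero (not_lt.mp hc))

lemma hat_lip (x y : ℝ) : |hat x - hat y| ≤ |x - y| := by
  unfold hat
  have h := abs_max_sub_max_le_abs (1 - |x|) (1 - |y|) 0
  rw [max_comm 0, max_comm 0]
  refine h.trans ?_
  have : (1 - |x|) - (1 - |y|) = |y| - |x| := by ring
  rw [this, abs_sub_comm x y]
  exact abs_abs_sub_abs_le_abs_sub y x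

/-- the two integers at which the hat does not vanish -/
noncomputable def two (θ : ℝ) : Finset ℤ := {-⌊θ⌋, -⌊θ⌋ - 1}

lemma hat_zero_of_notMem {θ : ℝ} {k : ℤ} (hk : k ∉ two θ) : hat (k + θ) = 0 := by
  apply hat_eq_zero
  have h1 := Int.floor_le θ
  have h2 := Int.lt_floor_add_one θ
  simp only [two, Finset.mem_insert, Finset.mem_singleton, not_or] at hk
  obtain ⟨hk1, hk2⟩ := hk
  rcases lt_or_gt_of_ne hk1 with h | h
  · have : k ≤ -⌊θ⌋ - 2 := by omega
    have : (k : ℝ) ≤ -⌊θ⌋ - 2 := by exact_mod_cast this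
    rw [le_abs]; right; linarith
  · have : -⌊θ⌋ + 1 ≤ k := by omega
    have : -(⌊θ⌋ : ℝ) + 1 ≤ (k : ℝ) := by exact_mod_cast this
    rw [le_abs]; left; linarith

lemma sum_two (θ : ℝ) : ∑ k ∈ two θ, hat (k + θ) = 1 := by
  have h1 := Int.floor_le θ
  have h2 := Int.lt_floor_add_one θ
  rw [two, Finset.sum_pair (by omega)]
  have e1 : hat (((-⌊θ⌋ : ℤ) : ℝ) + θ) = 1 - (θ - ⌊θ⌋) := by
    unfold hat
    push_cast
    rw [show -(⌊θ⌋ : ℝ) + θ = θ - ⌊θ⌋ by ring, abs_of_nonneg (by linarith), max_eq_right (by linarith)]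
  have e2 : hat (((-⌊θ⌋ - 1 : ℤ) : ℝ) + θ) = θ - ⌊θ⌋ := by
    unfold hat
    push_cast
    rw [abs_of_nonpos (by linarith), max_eq_right (by linarith)]
    ring
  rw [e1, e2]
  ring

lemma hat_sum_pi {ι : Type*} [Fintype ι] (θ : ι → ℝ) :
    HasSum (fun k : ι → ℤ => ∏ i, hat (k i + θ i)) 1 := by
  classical
  have h : HasSum (fun k : ι → ℤ => ∏ i, hat (k i + θ i))
      (∑ k ∈ Fintype.piFinset (fun i => two (θ i)), ∏ i, hat (k i + θ i)) :=
    hasSum_sum_of_ne_finset_zero (by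
      intro k hk
      rw [Fintype.mem_piFinset] at hk
      push Not at hk
      obtain ⟨i, hi⟩ := hk
      exact Finset.prod_eq_zero (Finset.mem_univ i) (hat_zero_of_notMem hi))
  have h2 : ∑ k ∈ Fintype.piFinset (fun i => two (θ i)), ∏ i, hat (k i + θ i) = 1 := by
    rw [← Finset.prod_univ_sum (fun i => two (θ i)) (fun i k => hat (k + θ i))]
    simp [sum_two]
  rwa [h2] at h

lemma abs_prod_sub_prod_le {ι : Type*} (s : Finset ι) (a b : ι → ℝ)
    (ha0 : ∀ i, 0 ≤ a i) (ha1 : ∀ i, a i ≤ 1) (hb0 : ∀ i, 0 ≤ b i) (hb1 : ∀ i, b i ≤ 1) :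
    |∏ i ∈ s, a i - ∏ i ∈ s, b i| ≤ ∑ i ∈ s, |a i - b i| := by
  classical
  induction s using Finset.induction_on with
  | empty => simp
  | insert j s hj ih =>
    rw [Finset.prod_insert hj, Finset.prod_insert hj, Finset.sum_insert hj]
    have hA : |∏ i ∈ s, b i| ≤ 1 := by
      rw [abs_of_nonneg (Finset.prod_nonneg fun i _ => hb0 i)]
      exact Finset.prod_le_one (fun i _ => hb0 i) (fun i _ => hb1 i)
    have hB : |a j| ≤ 1 := by rw [abs_of_nonneg (ha0 j)]; exact ha1 j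
    calc |a j * ∏ i ∈ s, a i - b j * ∏ i ∈ s, b i|
        = |a j * (∏ i ∈ s, a i - ∏ i ∈ s, b i) + (a j - b j) * ∏ i ∈ s, b i| := by ring_nf
      _ ≤ |a j * (∏ i ∈ s, a i - ∏ i ∈ s, b i)| + |(a j - b j) * ∏ i ∈ s, b i| := abs_add_le _ _
      _ = |a j| * |∏ i ∈ s, a i - ∏ i ∈ s, b i| + |a j - b j| * |∏ i ∈ s, b i| := by
          rw [abs_mul, abs_mul]
      _ ≤ 1 * |∏ i ∈ s, a i - ∏ i ∈ s, b i| + |a j - b j| * 1 := by gcongr
      _ ≤ |a j - b j| + ∑ i ∈ s, |a i - b i| := by linarith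

end Pool.Agent.H484R2
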