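import Mathlib

/-! Quadratic extensions `E' = E(v)`, `v^2 + b v + c = y`. -/

set_option autoImplicit false
open Polynomial NumberField Module

namespace Pool.Agent.H484R2

section
variable (E : Type) [Field E] [NumberField E] (b c : ℤ) (y : E)

/-- the polynomial `X^2 + bX + (c - y)` -/
noncomputable def gp : E[X] := X ^ 2 + C (b : E) * X + C ((c : E) - y)

lemma gp_monic : (gp E b c y).Monic := by unfold gp; monicity!

lemma gp_natDegree : (gp E b c y).natDegree = 2 := by unfold gp; compute_degree!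

lemma aeval_gp {A : Type*} [CommRing A] [Algebra E A] (x : A) :
    aeval x (gp E b c y) = x ^ 2 + b * x + (c - algebraMap E A y) := by
  simp [gp]

lemma gp_irr (hD : ¬ IsSquare (4 * y + b ^ 2 - 4 * c)) : Irreducible (gp E b c y) := by
  rw [(gp_monic E b c y).irreducible_iff_roots_eq_zero_of_degree_le_three
    (by rw [gp_natDegree]) (by rw [gp_natDegree]; norm_num)]
  rw [Multiset.eq_zero_iff_forall_notMem]
  intro z hz
  rw [mem_roots (gp_monic E b c y).ne_zero, IsRoot.def] at hz
  simp [gp] at hz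
  apply hD
  refine ⟨2 * z + b, ?_⟩
  linear_combination (-4) * hz

lemma mk_eq_linear (z : AdjoinRoot (gp E b c y)) : ∃ α β : E,
    z = algebraMap E _ α + algebraMap E _ β * AdjoinRoot.root (gp E b c y) := by
  obtain ⟨p, rfl⟩ := AdjoinRoot.mk_surjective z
  have h1 : AdjoinRoot.mk (gp E b c y) p = AdjoinRoot.mk (gp E b c y) (p %ₘ gp E b c y) := by
    conv_lhs => rw [← modByMonic_add_div p (gp E b c y)]
    rw [map_add, map_mul, AdjoinRoot.mk_self, zero_mul, add_zero]
  have hd : (p %ₘ gp E b c y).natDegree ≤ 1 := by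
    have := natDegree_modByMonic_lt p (gp_monic E b c y) (by
      intro h
      have h2 := gp_natDegree E b c y
      rw [h] at h2
      simp at h2)
    rw [gp_natDegree] at this
    omega
  obtain ⟨β, α, h⟩ := exists_eq_X_add_C_of_natDegree_le_one hd
  refine ⟨α, β, ?_⟩
  rw [h1, h, map_add, map_mul, AdjoinRoot.mk_X, AdjoinRoot.mk_C, AdjoinRoot.mk_C]
  rw [add_comm]
  rfl

end

/-- existence of the quadratic extension generated by a root of `X^2 + bX + (c - y)` -/
theorem exists_quad (E : Type) [Field E] [NumberField E] (b c : ℤ) (y : 𝓞 E)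
    (hD : ¬ IsSquare (4 * (y : E) + b ^ 2 - 4 * c)) :
    ∃ (E' : Type) (_ : Field E') (_ : NumberField E') (_ : Algebra E E') (v : 𝓞 E')
      (σ : E' →ₐ[E] E'),
      (v : E') ^ 2 + b * v + c = algebraMap E E' y ∧ σ v = -b - v ∧
      ∀ z : E', ∃ α β : E, z = algebraMap E E' α + algebraMap E E' β * v := by
  have : Fact (Irreducible (gp E b c y)) := ⟨gp_irr E b c y hD⟩
  have hfin : Module.Finite E (AdjoinRoot (gp E b c y)) :=
    (AdjoinRoot.powerBasis (gp_monic E b c y).ne_zero).finite
  have hNF : NumberField (AdjoinRoot (gp E b c y)) :=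
    NumberField.of_module_finite E (AdjoinRoot (gp E b c y))
  have hroot : (AdjoinRoot.root (gp E b c y)) ^ 2 + b * (AdjoinRoot.root (gp E b c y)) + c =
      algebraMap E (AdjoinRoot (gp E b c y)) y := by
    have h1 : aeval (AdjoinRoot.root (gp E b c y)) (gp E b c y) = 0 := by
      rw [AdjoinRoot.aeval_eq, AdjoinRoot.mk_self]
    rw [aeval_gp] at h1
    linear_combination h1
  have hint : IsIntegral ℤ (AdjoinRoot.root (gp E b c y)) := by
    -- root of a monic polynomial over `𝓞 E`
    have h1 : IsIntegral (𝓞 E) (AdjoinRoot.root (gp E b c y)) := by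
      refine ⟨X ^ 2 + C (b : 𝓞 E) * X + C (c - y : 𝓞 E), by monicity!, ?_⟩
      rw [← aeval_def]
      simp only [map_add, map_mul, map_pow, aeval_X, aeval_C, map_sub, map_intCast]
      have h2 : algebraMap (𝓞 E) (AdjoinRoot (gp E b c y)) y =
        algebraMap E (AdjoinRoot (gp E b c y)) y := rfl
      rw [h2]
      linear_combination hroot
    exact isIntegral_trans (R := ℤ) (A := 𝓞 E) _ h1
  let v : 𝓞 (AdjoinRoot (gp E b c y)) := ⟨AdjoinRoot.root (gp E b c y), hint⟩
  have hconj : aeval (-(b : AdjoinRoot (gp E b c y)) - AdjoinRoot.root (gp E b c y))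
      (gp E b c y) = 0 := by
    rw [aeval_gp]
    linear_combination hroot
  let σ : AdjoinRoot (gp E b c y) →ₐ[E] AdjoinRoot (gp E b c y) :=
    AdjoinRoot.liftAlgHom (gp E b c y) (Algebra.ofId E _)
      (-(b : AdjoinRoot (gp E b c y)) - AdjoinRoot.root (gp E b c y)) hconj
  refine ⟨AdjoinRoot (gp E b c y), inferInstance, hNF, inferInstance, v, σ, ?_, ?_, ?_⟩
  · exact hroot
  · exact AdjoinRoot.liftAlgHom_root _ _ _ _
  · intro z
    exact mk_eq_linear E b c y z

end Pool.Agent.H484R2
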