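import Pool.Agent.H484R2.Mean

/-! The field generated by a root of `f^a` and the initial independence. -/

set_option autoImplicit false
open Polynomial NumberField Module Filter Topology

namespace Pool.Agent.H484R2

/-- the iterates as rational polynomials -/
noncomputable def itq (b c : ℤ) (a : ℕ) : ℚ[X] := ((fq b c).comp)^[a] X

/-- the iterates as integer polynomials -/
noncomputable def itz (b c : ℤ) (a : ℕ) : ℤ[X] := ((X ^ 2 + C b * X + C c : ℤ[X]).comp)^[a] X

lemma itq_eval (b c : ℤ) (a : ℕ) (t : ℚ) : (itq b c a).eval t = (F b c)^[a] t := by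
  unfold itq
  rw [iterate_comp_eval, eval_X]
  congr 1
  funext x
  simp [fq, F]

lemma itq_orb (b c : ℤ) (a i : ℕ) : (itq b c a).eval (orb b c i) = orb b c (a + i) := by
  rw [itq_eval]
  unfold orb
  rw [← Function.iterate_add_apply]

lemma itz_map (b c : ℤ) (a : ℕ) : (itz b c a).map (Int.castRingHom ℚ) = itq b c a := by
  unfold itz itq
  induction a with
  | zero => simp
  | succ n ih =>
    rw [Function.iterate_succ_apply', Function.iterate_succ_apply', map_comp, ih]
    congr 1
    simp [fq]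

lemma itz_zp (b c : ℤ) (a : ℕ) (p : ℕ) (x : ZMod p) :
    eval₂ (Int.castRingHom (ZMod p)) x (itz b c a) = (fp b c p)^[a] x := by
  unfold itz
  rw [iterate_comp_eval₂, eval₂_X]
  congr 1
  funext z
  simp only [fp, eval₂_add, eval₂_mul, eval₂_pow, eval₂_X, eval₂_C, Int.coe_castRingHom]

lemma itz_monic_deg (b c : ℤ) (a : ℕ) : (itz b c a).Monic ∧ (itz b c a).natDegree = 2 ^ a := by
  have hg : (X ^ 2 + C b * X + C c : ℤ[X]).Monic := by monicity!
  have hgd : (X ^ 2 + C b * X + C c : ℤ[X]).natDegree = 2 := by compute_degree!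
  unfold itz
  induction a with
  | zero => simp [monic_X]
  | succ n ih =>
    rw [Function.iterate_succ_apply']
    refine ⟨hg.comp ih.1 ?_, ?_⟩
    · rw [ih.2]; positivity
    · rw [natDegree_comp, hgd, ih.2, pow_succ]; ring

lemma itq_monic (b c : ℤ) (a : ℕ) : (itq b c a).Monic := by
  rw [← itz_map]
  exact (itz_monic_deg b c a).1.map _

lemma itq_natDegree (b c : ℤ) (a : ℕ) : (itq b c a).natDegree = 2 ^ a := by
  rw [← itz_map, (itz_monic_deg b c a).1.natDegree_map, (itz_monic_deg b c a).2]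

section
variable {K : Type} [Field K] [NumberField K]

/-- norm of `x - y` for a power basis -/
lemma norm_sub_gen (B : PowerBasis ℚ K) (x : ℚ) :
    Algebra.norm ℚ (algebraMap ℚ K x - B.gen) = (minpoly ℚ B.gen).eval x := by
  classical
  rw [Algebra.norm_eq_matrix_det B.basis, map_sub, ← charpoly_leftMulMatrix B,
    Matrix.eval_charpoly]
  congr 2
  rw [AlgHom.commutes]
  rfl

end

lemma change_alg {K : Type} [Field K] [CharZero K] (A : Algebra ℚ K) (q : ℚ[X])
    (h : ∃ B : @PowerBasis ℚ K _ _ A, @minpoly ℚ K _ _ A (@PowerBasis.gen ℚ K _ _ A B) = q) :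
    ∃ B : @PowerBasis ℚ K _ _ DivisionRing.toRatAlgebra,
      @minpoly ℚ K _ _ DivisionRing.toRatAlgebra
        (@PowerBasis.gen ℚ K _ _ DivisionRing.toRatAlgebra B) = q := by
  obtain rfl : A = DivisionRing.toRatAlgebra := Subsingleton.elim _ _
  exact h

/-- the root field of a monic irreducible polynomial -/
theorem exists_rf (q : ℚ[X]) (hq : Irreducible q) (hm : q.Monic) :
    ∃ (K : Type) (_ : Field K) (_ : NumberField K) (B : PowerBasis ℚ K), minpoly ℚ B.gen = q := by
  have : Fact (Irreducible q) := ⟨hq⟩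
  have h0 : ∃ B : PowerBasis ℚ (AdjoinRoot q), minpoly ℚ B.gen = q := by
    refine ⟨AdjoinRoot.powerBasis hm.ne_zero, ?_⟩
    rw [AdjoinRoot.powerBasis_gen]
    refine (AdjoinRoot.minpoly_root hm.ne_zero).trans ?_
    rw [hm.leadingCoeff]
    simp
  have hc : CharZero (AdjoinRoot q) :=
    charZero_of_injective_algebraMap (algebraMap ℚ (AdjoinRoot q)).injective
  obtain ⟨B', hB'⟩ := change_alg _ q h0
  have hfin : @Module.Finite ℚ (AdjoinRoot q) _ _ (@Algebra.toModule _ _ _ _ DivisionRing.toRatAlgebra) :=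
    @PowerBasis.finite ℚ (AdjoinRoot q) _ _ DivisionRing.toRatAlgebra B'
  exact ⟨AdjoinRoot q, inferInstance, { to_charZero := hc, to_finiteDimensional := hfin }, B', hB'⟩

section
variable {b c : ℤ} {a : ℕ} {K : Type} [Field K] [NumberField K] (B : PowerBasis ℚ K)
  (hB : minpoly ℚ B.gen = itq b c a)

include hB in
lemma gen_itz : aeval B.gen (itz b c a) = 0 := by
  have h1 : aeval B.gen (itq b c a) = 0 := by
    rw [← hB]; exact minpoly.aeval _ _
  rw [← itz_map, aeval_def, eval₂_map] at h1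
  rw [aeval_def]
  have h2 : (algebraMap ℚ K).comp (Int.castRingHom ℚ) = algebraMap ℤ K := RingHom.ext_int _ _
  rw [h2] at h1
  exact h1

include hB in
lemma gen_integral : IsIntegral ℤ B.gen :=
  ⟨itz b c a, (itz_monic_deg b c a).1, by
    have := gen_itz B hB
    rwa [aeval_def] at this⟩

include hB in
lemma norm_cE (ha : 1 ≤ a) {y : 𝓞 K} (hy : (y : K) = B.gen) (i : ℕ) :
    Algebra.norm ℚ (cE b c y i) = orb b c (a + i) := by
  have key : Algebra.norm ℚ (((orb b c i : ℚ) : K) - (y : K)) = orb b c (a + i) := by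
    rw [← itq_orb, ← hB, ← norm_sub_gen, hy]
    rfl
  unfold cE
  split_ifs with hi
  · subst hi
    have h2 : (y : K) - ((orb b c 1 : ℚ) : K) =
        algebraMap ℚ K (-1) * (((orb b c 1 : ℚ) : K) - (y : K)) := by
      rw [map_neg, map_one]; ring
    rw [h2, map_mul, key, Algebra.norm_algebraMap]
    have hfr : finrank ℚ K = 2 ^ a := by
      rw [B.finrank, ← B.natDegree_minpoly, hB, itq_natDegree]
    rw [hfr]
    obtain ⟨k, rfl⟩ : ∃ k, a = k + 1 := ⟨a - 1, by omega⟩
    rw [pow_succ, mul_comm (2 ^ k), pow_mul]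
    simp
  · exact key

include hB in
/-- initial independence -/
lemma ind_start (ha : 1 ≤ a) {y : 𝓞 K} (hy : (y : K) = B.gen) (N : ℕ)
    (h : ∀ I : Finset ℕ, I ⊆ Finset.Icc 1 N → I.Nonempty →
      ¬ IsSquare (∏ i ∈ I, orb b c (a + i))) :
    Ind b c [(N, y)] := by
  rintro P ⟨s, hs, t', P', ⟨rfl, rfl⟩, rfl, ht⟩ hsq
  simp only [Bool.false_eq_true, or_false, true_iff] at ht
  apply h s hs ht
  rw [mul_one] at hsq
  obtain ⟨z, hz⟩ := hsq
  refine ⟨Algebra.norm ℚ z, ?_⟩
  rw [← map_mul, ← hz, map_prod]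
  exact Finset.prod_congr rfl fun i _ => (norm_cE B hB ha hy i).symm

end

end Pool.Agent.H484R2
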